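import Pool.Agent.H70.EH.Targets
import Pool.Agent.H57.NB.DTL

/-!
# Level two of decision trees, relative to the mean (module RDT)
-/

set_option autoImplicit false

open Finset

namespace Pool.Agent.H14.EH

open Pool.Agent.H6.NB Pool.Agent.H70.EH
open Pool.Agent.H57.NB.DTL (qv sum_zero card_qv)

variable {V : Type} [DecidableEq V] [Fintype V]

theorem hat_le (t : Pool.Agent.H68.AC.DT V) (S : Finset V) :
    |hat (fun y => bi (t.eval y)) S| ≤
      (∑ y : V → Bool, if S ⊆ qv y t then bi (t.eval y) else 0) / 2 ^ Fintype.card V := by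
  rw [hat, abs_div, abs_of_pos (by positivity : (0 : ℝ) < 2 ^ Fintype.card V)]
  refine div_le_div_of_nonneg_right ?_ (by positivity)
  rw [← Finset.sum_filter_add_sum_filter_not univ (fun y : V → Bool => S ⊆ qv y t), sum_zero, add_zero,
    ← Finset.sum_filter]
  refine (Finset.abs_sum_le_sum_abs _ _).trans ?_
  refine Finset.sum_le_sum fun y _ => ?_
  have h1 : |∏ u ∈ S, sg (y u)| = 1 := by
    rw [Finset.abs_prod]
    refine Finset.prod_eq_one fun u _ => ?_
    simp only [sg]
    split_ifs <;> simp
  rw [abs_mul, h1, mul_one]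
  simp only [bi]
  split_ifs <;> simp

theorem rdt : T_RDT := by
  intro V _ _ t w hw
  have hpos : (0 : ℝ) < 2 ^ Fintype.card V := by positivity
  rw [L12, mn, mul_div_assoc']
  calc ∑ S ∈ powersetCard 2 (univ : Finset V), |hat (fun y => bi (t.eval y)) S|
      ≤ ∑ S ∈ powersetCard 2 (univ : Finset V),
        (∑ y : V → Bool, if S ⊆ qv y t then bi (t.eval y) else 0) / 2 ^ Fintype.card V :=
        Finset.sum_le_sum fun S _ => hat_le t S
    _ = (∑ y : V → Bool, ((powersetCard 2 (qv y t)).card : ℝ) * bi (t.eval y)) /
        2 ^ Fintype.card V := by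
        rw [← Finset.sum_div, Finset.sum_comm]
        congr 1
        refine Finset.sum_congr rfl fun y _ => ?_
        rw [← Finset.sum_filter, Finset.sum_const, nsmul_eq_mul]
        congr 3
        ext S
        simp only [mem_filter, mem_powersetCard, subset_univ, true_and]
        tauto
    _ ≤ _ := by
        refine div_le_div_of_nonneg_right ?_ hpos.le
        rw [Finset.mul_sum]
        refine Finset.sum_le_sum fun y _ => ?_
        have hb : 0 ≤ bi (t.eval y) := by
          simp only [bi]
          split_ifs <;> simp
        refine mul_le_mul_of_nonneg_right ?_ hb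
        rw [card_powersetCard]
        have h2 : (qv y t).card ≤ w := (card_qv y t).trans hw
        have h3 : (qv y t).card.choose 2 ≤ w ^ 2 :=
          (Nat.choose_le_pow _ _).trans (Nat.pow_le_pow_left h2 2)
        exact_mod_cast h3

end Pool.Agent.H14.EH
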